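import Pool.Agent.Run7.h772.KH.Fin

set_option autoImplicit false

/-!
# Local moments of zeta over arbitrary measures near the critical line: the threshold in the local dimension

For a finite measure `μ` on `[0,1]` and real `k > 0` the local moments `∫ |ζ(1/2+d+i(t+x))|^{2k} dμ(x)` are considered for
`t ≤ T`, where `d = d(T) → 0` and `d log T → ∞`.

(1) `k < 1`: limit laws, with multiplicative chaos over the part of `μ` of local dimension above `k²`; the part of local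
dimension below `k²` does not contribute.
(2) If the local dimension is below `k²` almost everywhere, or `k > 1`, the normalised moments tend to zero in measure.
(3) For all `k > 0` the exact exponent of the local moments in almost all windows, if the dimension of `μ` from below and the
box dimension of a set which carries `μ` agree.
-/

namespace Pool.Agent.Results.MP_3d0d30_nt.DimensionThreshold

open MeasureTheory Filter Topology

/-- the law of independent uniform phases, one for every integer (only the prime ones are used) -/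
noncomputable def P : Measure (ℕ → UnitAddCircle) :=
  Measure.infinitePi fun _ : ℕ => (AddCircle.haarAddCircle (T := (1:ℝ)))

/-- the random Euler product over the primes `p < N` at `1/2 + ix` -/
noncomputable def zrand (N : ℕ) (w : ℕ → UnitAddCircle) (x : ℝ) : ℂ :=
  ∏ p ∈ (Finset.range N).filter Nat.Prime, (1 - (fourier 1 (w p) : ℂ) * ((p:ℕ):ℂ) ^ (-(1 / 2 + x * Complex.I)))⁻¹

/-- the integral of `f` against the normalised model weight, `∫ f |zrand|^{2k} / E |zrand|^{2k} dμ` -/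
noncomputable def cascade (μ : Measure ℝ) (k : ℝ) (f : ℝ → ℝ) (N : ℕ) (w : ℕ → UnitAddCircle) : ℝ :=
  ∫ x, f x * (‖zrand N w x‖ ^ (2 * k) / ∫ w', ‖zrand N w' x‖ ^ (2 * k) ∂P) ∂μ

/-- the arithmetic factor of the moment conjecture,
`a(k) = ∏_p (1 - 1/p)^{k²} Σ_m (k (k+1) ... (k+m-1) / m!)² p^{-m}` -/
noncomputable def ak (k : ℝ) : ℝ :=
  ∏' p : Nat.Primes, ((1 - 1 / (p : ℝ)) ^ (k ^ 2) *
    ∑' m : ℕ, (∏ i ∈ Finset.range m, (k + i) / ((i : ℝ) + 1)) ^ 2 * (1 / (p : ℝ)) ^ m)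

/-- the local moment over `μ` at distance `d` from the critical line and height `t`:
`∫ f(x) (2d)^{k²} |ζ(1/2+d+i(t+x))|^{2k} dμ(x)` -/
noncomputable def mom (μ : Measure ℝ) (k : ℝ) (f : ℝ → ℝ) (d t : ℝ) : ℝ :=
  ∫ x, f x * ((2 * d) ^ (k ^ 2) * ‖riemannZeta (1 / 2 + d + (t + x : ℝ) * Complex.I)‖ ^ (2 * k)) ∂μ

/-- the points at which the local dimension of `μ` is larger than `D`: `μ[x-r,x+r] ≤ r^s` for some `s > D` and all
small `r` -/
def above (μ : Measure ℝ) (D : ℝ) : Set ℝ :=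
  {x | ∃ s : ℝ, D < s ∧ ∃ r0 : ℝ, 0 < r0 ∧ ∀ r : ℝ, 0 < r → r ≤ r0 → μ (Set.Icc (x - r) (x + r)) ≤ ENNReal.ofReal (r ^ s)}

/-- the points at which the local dimension of `μ` is smaller than `D`: `μ[x-r,x+r] ≥ r^s` for some `s < D` and all
small `r` -/
def below (μ : Measure ℝ) (D : ℝ) : Set ℝ :=
  {x | ∃ s : ℝ, s < D ∧ ∃ r0 : ℝ, 0 < r0 ∧ ∀ r : ℝ, 0 < r → r ≤ r0 → ENNReal.ofReal (r ^ s) ≤ μ (Set.Icc (x - r) (x + r))}

/-- measurable functions bounded by one -/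
def Adm (f : ℝ → ℝ) : Prop := Measurable f ∧ ∀ x, |f x| ≤ 1

/-- `Q T t` holds for almost all `t ≤ T`: the exceptional set in `[0,T]` has (outer) measure at most `ε T` for every `ε > 0`
and all large `T` -/
def AlmostAll (Q : ℝ → ℝ → Prop) : Prop :=
  ∀ ε : ℝ, 0 < ε → ∀ᶠ T : ℝ in atTop, volume {t ∈ Set.Icc 0 T | ¬ Q T t} ≤ ENNReal.ofReal (ε * T)

/-- the upper box dimension of `E` is at most `D`: for every `e > 0` and all small `d`, `E` is covered by at most `d^(-D-e)`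
of the intervals `[jd, (j+1)d)` -/
def Covered (E : Set ℝ) (D : ℝ) : Prop := ∀ e : ℝ, 0 < e → ∃ d0 : ℝ, 0 < d0 ∧ ∀ d : ℝ, 0 < d → d ≤ d0 →
  ∃ G : Finset ℤ, (G.card : ℝ) ≤ d ^ (-D - e) ∧ E ⊆ ⋃ j ∈ G, Set.Ico ((j:ℝ) * d) (((j:ℝ) + 1) * d)

/-- the typical exponent: `k²` for `k ≤ √D` and `2k√D - D` for `k > √D` -/
noncomputable def expo (D k : ℝ) : ℝ := if k ≤ √D then k ^ 2 else 2 * k * √D - D

/-- the local moment `∫ |ζ(1/2+d+i(t+x))|^{2k} dμ(x)` -/
noncomputable def loc (μ : Measure ℝ) (k d t : ℝ) : ℝ :=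
  ∫ x, ‖riemannZeta (1 / 2 + d + (t + x : ℝ) * Complex.I)‖ ^ (2 * k) ∂μ

open Run7.h772.KH in
lemma loc_eq (μ : Measure ℝ) (k d t : ℝ) : loc μ k d t = SS μ k d t := by
  unfold loc SS
  refine integral_congr_ae (Eventually.of_forall fun x => ?_)
  show ‖riemannZeta (1 / 2 + d + (t + x : ℝ) * Complex.I)‖ ^ (2 * k) = Pool.Agent.W184.zn (1 / 2 + d) (t + x) ^ (2 * k)
  unfold Pool.Agent.W184.zn
  congr 3
  push_cast
  ring

open Pool.Agent.N748.GC in
lemma norm_at {α : ℝ} (z : ℕ) (x : ℝ) : ∫ w', ‖EO z w' x‖ ^ (2 * α) ∂PO = E0 α (Sm z) := by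
  simp_rw [RZ.EO_norm]
  have hc : Continuous fun x : UnitAddTorus (Sm z) => Real.exp (∑ p : Sm z, lw α p (x p)) := by
    refine Real.continuous_exp.comp ?_
    refine continuous_finsetSum _ fun p _ => ?_
    exact (RZ.lw_cont α (RZ.Sm_prime z p p.2)).comp (continuous_apply p)
  have h := RZ.int_restr_add (Sm z) _ hc (pt (Sm z) x)
  rw [RZ.int_exp_eq] at h
  exact h

open Pool.Agent.N748.GC in
lemma cascade_eq (μ : Measure ℝ) (k : ℝ) (f : ℝ → ℝ) (N : ℕ) (w : ℕ → UnitAddCircle) :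
    cascade μ k f N w = ∫ x, f x * rz k N w x ∂μ := by
  unfold cascade
  refine integral_congr_ae (Eventually.of_forall fun x => ?_)
  show f x * (‖zrand N w x‖ ^ (2 * k) / ∫ w', ‖zrand N w' x‖ ^ (2 * k) ∂P) = f x * rz k N w x
  congr 1
  unfold rz
  rw [norm_at, ← norm_at N x]
  rfl

open Pool.Agent.N748.GC Run7.h772.KH in
lemma mom_eq {k : ℝ} (h0 : 0 < k) (μ : Measure ℝ) (f : ℝ → ℝ) (d t : ℝ) : mom μ k f d t = ak k * WI μ f (Zn k d) t := by
  have ha : 0 < ak k := Pool.Agent.H306R2.aF_pos h0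
  unfold mom WI
  rw [← integral_const_mul]
  refine integral_congr_ae (Eventually.of_forall fun x => ?_)
  show f x * ((2 * d) ^ (k ^ 2) * ‖riemannZeta (1 / 2 + d + (t + x : ℝ) * Complex.I)‖ ^ (2 * k)) = ak k * (f x * Zn k d (t + x))
  have e : Zn k d (t + x) = (2 * d) ^ (k ^ 2) / ak k * ‖riemannZeta (1 / 2 + d + (t + x : ℝ) * Complex.I)‖ ^ (2 * k) := by
    unfold Zn ak aa lc
    rfl
  rw [e]
  field_simp

open Pool.Agent.N748.GC Run7.h772.KH in
lemma deg_lim {μ : Measure ℝ} {k : ℝ} (hk : 0 < k) {d : ℝ → ℝ}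
    (h : ∀ η ε : ℝ, 0 < η → 0 < ε → ∀ᶠ T : ℝ in atTop, prop μ k d η T ≤ ENNReal.ofReal (ε * T)) {η : ℝ} (hη : 0 < η) :
    Tendsto (fun T : ℝ => (1 / T) * (volume {t ∈ Set.Icc 0 T | η ≤ mom μ k (fun _ => 1) (d T) t}).toReal) atTop (𝓝 0) := by
  have ha : 0 < ak k := Pool.Agent.H306R2.aF_pos hk
  rw [Metric.tendsto_nhds]
  intro ε hε
  filter_upwards [h (η / ak k) (ε / 2) (by positivity) (by positivity), eventually_gt_atTop 0] with T g1 hT
  have e1 : {t ∈ Set.Icc 0 T | η ≤ mom μ k (fun _ => 1) (d T) t} =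
      {t ∈ Set.Icc 0 T | η / ak k ≤ WI μ (fun _ => 1) (Zn k (d T)) t} := by
    ext t
    simp only [Set.mem_ofPred_eq, mom_eq hk, div_le_iff₀ ha, mul_comm (ak k)]
  have e2 : (volume {t ∈ Set.Icc 0 T | η ≤ mom μ k (fun _ => 1) (d T) t}).toReal ≤ ε / 2 * T := by
    rw [e1]
    exact ENNReal.toReal_le_of_le_ofReal (by positivity) g1
  rw [Real.dist_eq, sub_zero, abs_of_nonneg (by positivity)]
  calc 1 / T * (volume {t ∈ Set.Icc 0 T | η ≤ mom μ k (fun _ => 1) (d T) t}).toReal ≤ 1 / T * (ε / 2 * T) :=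
        mul_le_mul_of_nonneg_left e2 (by positivity)
    _ = ε / 2 := by field_simp
    _ < ε := by linarith

open Pool.Agent.N748.GC Run7.h772.KH in
theorem result (μ : Measure ℝ) [IsFiniteMeasure μ] (hμ : μ (Set.Icc (0:ℝ) 1)ᶜ = 0) (k : ℝ) (hk : 0 < k) :
    (k < 1 → 0 < ak k ∧ MeasurableSet (above μ (k ^ 2)) ∧ ∃ Λ : (ℝ → ℝ) → (ℕ → UnitAddCircle) → ℝ,
      (∀ f : ℝ → ℝ, Adm f → Measurable (Λ f) ∧ Integrable (Λ f) P ∧
        ∫ w, Λ f w ∂P = ∫ x in above μ (k ^ 2), f x ∂μ ∧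
        Tendsto (fun N : ℕ => ∫ w, |cascade (μ.restrict (above μ (k ^ 2))) k f N w - Λ f w| ∂P) atTop (𝓝 0)) ∧
      (μ (above μ (k ^ 2)) ≠ 0 → ∀ᵐ w ∂P, 0 < Λ (fun _ => 1) w) ∧
      ∀ d : ℝ → ℝ, Tendsto d atTop (𝓝 0) → Tendsto (fun T : ℝ => d T * Real.log T) atTop atTop →
        ∀ (n : ℕ) (f : Fin n → ℝ → ℝ), (∀ j, Adm (f j)) →
        ∀ (G : (Fin n → ℝ) → ℝ) (C : NNReal), LipschitzWith C G →
        ((∀ᵐ x ∂μ, x ∈ above μ (k ^ 2)) ∨
          (∀ᵐ x ∂μ, x ∈ above μ (k ^ 2) ∪ below μ (k ^ 2)) ∧ ∃ B : ℝ, ∀ y, |G y| ≤ B) →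
        Tendsto (fun T : ℝ => (1 / T) * ∫ t in (0:ℝ)..T, G fun j => mom μ k (f j) (d T) t) atTop
          (𝓝 (∫ w, G (fun j => ak k * Λ (f j) w) ∂P))) ∧
    ((1 < k ∨ ∀ᵐ x ∂μ, x ∈ below μ (k ^ 2)) →
      ∀ d : ℝ → ℝ, Tendsto d atTop (𝓝 0) → Tendsto (fun T : ℝ => d T * Real.log T) atTop atTop →
        ∀ η : ℝ, 0 < η →
        Tendsto (fun T : ℝ => (1 / T) * (volume {t ∈ Set.Icc 0 T | η ≤ mom μ k (fun _ => 1) (d T) t}).toReal)
          atTop (𝓝 0)) ∧
    (∀ E : Set ℝ, E ⊆ Set.Icc 0 1 → ∀ D : ℝ, 0 < D → D ≤ 1 → Covered E D → μ Eᶜ = 0 → (∀ s : ℝ, s < D → μ (above μ s) ≠ 0) →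
      ∀ d : ℝ → ℝ, Tendsto d atTop (𝓝 0) → Tendsto (fun T : ℝ => d T * Real.log T) atTop atTop → ∀ e : ℝ, 0 < e →
        AlmostAll fun T t => d T ^ (-expo D k + e) ≤ loc μ k (d T) t ∧ loc μ k (d T) t ≤ d T ^ (-expo D k - e)) := by
  have hμs : ∀ᵐ x ∂μ, x ∈ Set.Icc (0:ℝ) 1 := by
    rw [ae_iff]
    exact hμ
  have ha : 0 < ak k := Pool.Agent.H306R2.aF_pos hk
  refine ⟨?_, ?_, ?_⟩
  · intro hk1
    refine ⟨ha, above_meas (by positivity), ?_⟩
    obtain ⟨Λ, hΛ, hpos⟩ := exists_LP hμs hk hk1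
    refine ⟨Λ, ?_, hpos, ?_⟩
    · intro f hf
      obtain ⟨h1, h2, h3, h4⟩ := hΛ f ⟨hf.1, hf.2⟩
      refine ⟨h1, h2, h3, ?_⟩
      simp only [cascade_eq]
      exact h4
    · intro d hd hdL n f hf G C hG hcase
      have hP : Pd d := ⟨hd, hdL⟩
      have hf' : ∀ j, Ok (f j) := fun j => ⟨(hf j).1, (hf j).2⟩
      set G' : (Fin n → ℝ) → ℝ := fun y => G (fun j => ak k * y j) with hG'
      have hlip : LipschitzWith (C * (ak k).toNNReal) G' := by
        refine hG.comp ?_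
        refine LipschitzWith.of_dist_le_mul fun x y => ?_
        rw [Real.coe_toNNReal _ ha.le, dist_pi_le_iff (by positivity)]
        intro j
        rw [Real.dist_eq, ← mul_sub, abs_mul, abs_of_pos ha, ← Real.dist_eq]
        exact mul_le_mul_of_nonneg_left (dist_le_pi_dist x y j) ha.le
      have h5 : ∀ T : ℝ, (1 / T) * (∫ t in (0:ℝ)..T, G fun j => mom μ k (f j) (d T) t) =
          (1 / T) * ∫ t in (0:ℝ)..T, G' fun j => WI μ (f j) (Zn k (d T)) t := by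
        intro T
        simp only [mom_eq hk, hG']
      simp only [h5]
      rcases hcase with hc | ⟨hc, B, hB⟩
      · exact uni_above hμs hk hk1 hc Λ hΛ d hP f hf' G' _ hlip
      · exact uni hμs hk hk1 hc Λ hΛ d hP f hf' G' _ hlip (B := B) fun y => hB _
  · intro hcase d hd hdL η hη
    have hP : Pd d := ⟨hd, hdL⟩
    refine deg_lim hk (fun η ε hη hε => ?_) hη
    rcases lt_or_ge 1 k with h1 | h1
    · exact deg_gt_one hμs h1 hP hη hε
    · rcases hcase with h | h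
      · exact absurd h (not_lt.mpr h1)
      · have h2 := deg_ball (μ := μ) hμs hk h1 (V := Set.univ) MeasurableSet.univ
          (by filter_upwards [h] with x hx _; exact hx) hP hη hε
        rwa [Measure.restrict_univ] at h2
  · intro E hE D hD0 hD1 hcov hμE hL d hd hdL e he
    have hP : Pd d := ⟨hd, hdL⟩
    have h := typ hμs hD0 hD1 (cov_of hE hcov) hμE hL hk hP he
    simp only [← loc_eq] at h
    exact h

end Pool.Agent.Results.MP_3d0d30_nt.DimensionThreshold
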