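import Pool.Agent.Run7.h310.SQ.E3
import Pool.Agent.Run7.h310.SP.C1

set_option autoImplicit false

/-!
# The phases of the primes on the set of the large values of zeta near the critical line

At distance `d` from the critical line, `d log T / log² (1/d) → ∞`, for every real `V > 0`, `c > 0`: the integral of a
continuous function of the phases `p^(it)`, `p ∈ P`, over the set where `|ζ| > c (2d)^(-V)` is asymptotically the measure
of this set times the mean of the function over the torus with the density `∏ |1 - x_p/√p|^(-2V)` (normalised).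

Plan and proof by helper310 on the starting library `N748/MG`.
-/

namespace Pool.Agent.Results.MP_3d0d30_nt.PhasesAtLargeValues

open MeasureTheory Filter Topology

/-- the coefficients of `(1 - x)^(-V)` -/
noncomputable def cf (V : ℝ) (m : ℕ) : ℝ := ∏ i ∈ Finset.range m, (V + i) / ((i : ℝ) + 1)

/-- the arithmetic factor of the moment conjecture -/
noncomputable def ak (V : ℝ) : ℝ :=
  ∏' p : Nat.Primes, ((1 - 1 / (p : ℝ)) ^ (V ^ 2) * ∑' m : ℕ, cf V m ^ 2 * (1 / (p : ℝ)) ^ m)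

/-- the modulus of zeta at distance `d` from the critical line and height `t` -/
noncomputable def z (d t : ℝ) : ℝ := ‖riemannZeta (1 / 2 + d + t * Complex.I)‖

/-- the points of `[0, T]` at which `|ζ| > l` -/
def L (l d T : ℝ) : Set ℝ := {t : ℝ | t ∈ Set.Icc 0 T ∧ l < z d t}

/-- the phases `p^(it)` of the primes of `P`, as a point of the torus `(ℝ/ℤ)^P` -/
noncomputable def phase (P : Finset ℕ) (t : ℝ) : UnitAddTorus P :=
  fun p => ((t * Real.log (p : ℕ) / (2 * Real.pi) : ℝ) : UnitAddCircle)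

/-- the density of the limit law of the phases: at `x = exp (2πi θ)` the factor of `p` is `|1 - x/√p|^(-2V)` divided by
`∑ cf(m)² p^(-m)` -/
noncomputable def dens (V : ℝ) (P : Finset ℕ) (θ : UnitAddTorus P) : ℝ :=
  ∏ p : P, ‖1 - (((((p : ℕ) : ℝ) ^ (-(1 / 2) : ℝ) : ℝ)) : ℂ) * fourier 1 (θ p)‖ ^ (-(2 * V)) /
    ∑' m : ℕ, cf V m ^ 2 * (1 / ((p : ℕ) : ℝ)) ^ m

/-- the Haar measure of the torus, total mass 1 -/
noncomputable def haar (P : Finset ℕ) : Measure (UnitAddTorus P) :=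
  Measure.pi fun _ : P => (AddCircle.haarAddCircle : Measure UnitAddCircle)

/-- the asymptotic relative measure of the set where `|ζ| > c (2d)^(-V)` -/
noncomputable def N (V c d : ℝ) : ℝ :=
  ak V * c ^ (-(2 * V)) / (2 * V) * (2 * d) ^ (V ^ 2) / Real.sqrt (Real.pi * Real.log (1 / (2 * d)))

open Run7.h310.SP Run7.h310.SQ Pool.Agent.N748.MG

lemma lf_eq (k : ℝ) {p : ℕ} (hp : 1 ≤ p) : LF k 0 p 0 0 = ∑' m : ℕ, cf k m ^ 2 * (1 / ((p : ℕ) : ℝ)) ^ m := by
  rw [LF_zero_eq k hp]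
  refine tsum_congr fun m => ?_
  have hp0 : (0:ℝ) < p := by exact_mod_cast hp
  have e : (p : ℝ) ^ (-((2 * m + 0 + 0 : ℕ) : ℝ) / 2) = (1 / (p:ℝ)) ^ m := by
    rw [one_div, inv_pow, ← Real.rpow_natCast, ← Real.rpow_neg hp0.le]
    congr 1
    push_cast
    ring
  rw [e]
  simp only [add_zero]
  unfold cf
  ring

lemma dens_eq (k : ℝ) {P : Finset ℕ} (hP : ∀ p ∈ P, p.Prime) (θ : UnitAddTorus P) :
    dens k P θ = Run7.h310.SP.dens k P θ := by
  unfold dens Run7.h310.SP.dens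
  refine Finset.prod_congr rfl fun p _ => ?_
  rw [lf_eq k (hP p p.2).one_lt.le]
  unfold rho wN
  have e : (-(1 / 2 + 0) : ℝ) = -(1 / 2) := by norm_num
  rw [e]

theorem result (d : ℝ → ℝ) (hd0 : ∀ᶠ T : ℝ in atTop, 0 < d T) (hd : Tendsto d atTop (𝓝 0))
    (hdL : Tendsto (fun T : ℝ => d T * Real.log T / Real.log (1 / d T) ^ 2) atTop atTop) (V c : ℝ) (hV : 0 < V)
    (hc : 0 < c) (P : Finset ℕ) (hP : ∀ p ∈ P, p.Prime) (F : C(UnitAddTorus P, ℂ)) :
    0 < ak V ∧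
    Tendsto (fun T : ℝ => ((1 / T : ℂ) * ∫ t in L (c * (2 * d T) ^ (-V)) (d T) T, F (phase P t)) / ((N V c (d T) : ℝ) : ℂ))
      atTop (𝓝 (∫ θ, F θ * ((dens V P θ : ℝ) : ℂ) ∂(haar P))) := by
  have hA : Pool.Agent.N748.MG.Ad d := ⟨hd0, hd, hdL⟩
  have hak : ak V = akR V := rfl
  have hpos : 0 < ak V := (aC_akR V).1
  refine ⟨hpos, ?_⟩
  have h := large (t_ctw nicF) ldF d hA V c hV hc P hP F
  rw [aC_re, ← hak] at h
  have hK : 0 < ak V * (c ^ (-(2 * V)) / (2 * V)) := mul_pos hpos (div_pos (Real.rpow_pos_of_pos hc _) (by linarith))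
  have hKc : ((ak V * (c ^ (-(2 * V)) / (2 * V)) : ℝ) : ℂ) ≠ 0 := by exact_mod_cast hK.ne'
  have h2 := h.div_const ((ak V * (c ^ (-(2 * V)) / (2 * V)) : ℝ) : ℂ)
  rw [mul_div_cancel_left₀ _ hKc] at h2
  have e0 : ∫ θ, F θ * ((dens V P θ : ℝ) : ℂ) ∂(haar P) =
      ∫ x, F x * ((Run7.h310.SP.dens V P x : ℝ) : ℂ) ∂(hT P) := by
    simp only [dens_eq V hP]
    rfl
  rw [e0]
  refine h2.congr' ?_
  filter_upwards [hd0, hd.eventually_lt_const (show (0:ℝ) < 1 / 4 by norm_num)] with T g1 g2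
  have e1 : L (c * (2 * d T) ^ (-V)) (d T) T = {t : ℝ | t ∈ Set.Icc 0 T ∧ c * (2 * d T) ^ (-V) < mz (d T) t} := rfl
  have e2 : ∀ t, phase P t = thP P t := fun t => rfl
  rw [e1]
  simp only [e2]
  obtain ⟨J, hJ⟩ : ∃ J : ℂ, J = ∫ t in {t : ℝ | t ∈ Set.Icc 0 T ∧ c * (2 * d T) ^ (-V) < mz (d T) t}, F (thP P t) := ⟨_, rfl⟩
  rw [← hJ]
  have h3 : (0:ℝ) < 2 * d T := by linarith
  have hlog : 0 < Real.log (1 / (2 * d T)) := by
    apply Real.log_pos
    rw [lt_div_iff₀ h3]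
    linarith
  have hs : 0 < Real.sqrt (Real.pi * Real.log (1 / (2 * d T))) := Real.sqrt_pos.2 (mul_pos Real.pi_pos hlog)
  have h4 : (2 * d T) ^ (-(V ^ 2)) = ((2 * d T) ^ (V ^ 2))⁻¹ := Real.rpow_neg h3.le _
  have h5 : (0:ℝ) < (2 * d T) ^ (V ^ 2) := Real.rpow_pos_of_pos h3 _
  have e3 : N V c (d T) = (ak V * (c ^ (-(2 * V)) / (2 * V))) / GV (d T) V := by
    unfold N GV
    rw [h4]
    field_simp
  have hG : 0 < GV (d T) V := by
    unfold GV
    rw [h4]
    positivity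
  have hGc : ((GV (d T) V : ℝ) : ℂ) ≠ 0 := by exact_mod_cast hG.ne'
  rw [e3, Complex.ofReal_div, Complex.ofReal_div, Complex.ofReal_one, div_div_eq_mul_div]
  ring

end Pool.Agent.Results.MP_3d0d30_nt.PhasesAtLargeValues
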