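import Pool.Agent.Run7.h5.TM.Trim2
import Pool.Agent.Run7.h5.TM.Ak
import Pool.Agent.N748.MG.Res

set_option autoImplicit false

/-!
# MP_3d0d30_nt: trimmed moments of zeta near the critical line, of every order, with the leading constants

For `k > 0`, `m ≥ 0` let `trimmed k m d T` be the infimum, over all measurable sets `F` with
`vol (F ∩ [0, T]) ≤ m T`, of the mean `(1/T) ∫_{[0,T] \ F} |ζ(1/2 + d + it)|^(2k) dt`: the moment of order `2k` after the
best removal of a set of relative measure `m`. Let `d = d(T) → 0` such that `d log T / log² (1/d) → ∞`, and let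
`L = log (1/(2d))`. For every real `k > 0`, as `T → ∞`:

1. `trimmed k ((2d)^D) d T ~ a(k) (2d)^(-k²)` for every `D > k²`;
2. `trimmed k ((2d)^(k²) exp (-2 k x √(L/2))) d T ~ Φ(x) a(k) (2d)^(-k²)` for every real `x`, `Φ` the normal
   distribution function;
3. for `0 < V < k` and `λ > 0`, `trimmed k (λ a(V) (2d)^(V²) / (2 V √(π L))) d T` is asymptotic to
   `λ^(-(k - V)/V) a(V) (2d)^(V² - 2kV) / (2 (k - V) √(π L))`;
4. `0 < a(k) < 1` for `k ≠ 1`, and for `k ≠ 1`, every `D` and all large `T` there is a measurable set `F` with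
   `vol (F ∩ [0, T]) ≤ (2d)^D T` and `∫_{[0,T] \ F} |ζ(1/2 + d + it)|^(2k) dt < T (2d)^(-k²) ≤ T (log T)^(k²)`.

Here `a(k)` is the arithmetic factor of the moment conjecture.
-/

namespace Pool.Agent.Results.MP_3d0d30_nt.TrimmedMoments

open MeasureTheory Filter Topology

/-- the arithmetic factor of the moment conjecture,
`a(k) = ∏_p (1 - 1/p)^{k²} Σ_m (k (k+1) ... (k+m-1) / m!)² p^{-m}` -/
noncomputable def ak (k : ℝ) : ℝ :=
  ∏' p : Nat.Primes, ((1 - 1 / (p : ℝ)) ^ (k ^ 2) *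
    ∑' m : ℕ, (∏ i ∈ Finset.range m, (k + i) / ((i : ℝ) + 1)) ^ 2 * (1 / (p : ℝ)) ^ m)

/-- the infimum, over the measurable `F` with `vol (F ∩ [0, T]) ≤ m T`, of
`(1/T) ∫_{[0,T] \ F} |ζ(1/2 + d + it)|^(2k) dt` -/
noncomputable def trimmed (k m d T : ℝ) : ℝ :=
  sInf {r : ℝ | ∃ F : Set ℝ, MeasurableSet F ∧ volume.real (F ∩ Set.Icc 0 T) ≤ m * T ∧
    r = (1 / T) * ∫ t in Set.Icc 0 T \ F, ‖riemannZeta (1 / 2 + d + t * Complex.I)‖ ^ (2 * k)}

/-- the logarithm of `1/(2d)` -/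
noncomputable def L (d : ℝ) : ℝ := Real.log (1 / (2 * d))

/-- the normal distribution function -/
noncomputable def Phi (x : ℝ) : ℝ := (ProbabilityTheory.gaussianReal 0 1 (Set.Iic x)).toReal

theorem result (d : ℝ → ℝ) (hd0 : ∀ᶠ T : ℝ in atTop, 0 < d T) (hd : Tendsto d atTop (𝓝 0))
    (hdL : Tendsto (fun T : ℝ => d T * Real.log T / Real.log (1 / d T) ^ 2) atTop atTop) (k : ℝ) (hk : 0 < k) :
    (∀ D : ℝ, k ^ 2 < D →
      Tendsto (fun T : ℝ => trimmed k ((2 * d T) ^ D) (d T) T / (ak k * (2 * d T) ^ (-(k ^ 2)))) atTop (𝓝 1)) ∧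
    (∀ x : ℝ, Tendsto (fun T : ℝ =>
      trimmed k ((2 * d T) ^ (k ^ 2) * Real.exp (-(2 * k * x * Real.sqrt (L (d T) / 2)))) (d T) T /
        (ak k * (2 * d T) ^ (-(k ^ 2)))) atTop (𝓝 (Phi x))) ∧
    (∀ V lam : ℝ, 0 < V → V < k → 0 < lam → Tendsto (fun T : ℝ =>
      trimmed k (lam * (ak V * (2 * d T) ^ (V ^ 2) / (2 * V * Real.sqrt (Real.pi * L (d T))))) (d T) T /
        (ak V * (2 * d T) ^ (V ^ 2 - 2 * k * V) / (2 * (k - V) * Real.sqrt (Real.pi * L (d T))))) atTop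
          (𝓝 (lam ^ (-((k - V) / V))))) ∧
    0 < ak k ∧ (k ≠ 1 → ak k < 1 ∧ ∀ D : ℝ, ∀ᶠ T : ℝ in atTop, ∃ F : Set ℝ, MeasurableSet F ∧
      volume.real (F ∩ Set.Icc 0 T) ≤ (2 * d T) ^ D * T ∧
      ∫ t in Set.Icc 0 T \ F, ‖riemannZeta (1 / 2 + d T + t * Complex.I)‖ ^ (2 * k) < T * (2 * d T) ^ (-(k ^ 2)) ∧
      (2 * d T) ^ (-(k ^ 2)) ≤ Real.log T ^ (k ^ 2)) := by
  have hA : Pool.Agent.N748.MG.Ad d := ⟨hd0, hd, hdL⟩
  have hak : ∀ V : ℝ, ak V = Pool.Agent.N748.MG.akR V := fun V => rfl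
  have hpos : ∀ V : ℝ, 0 < ak V := fun V => (Pool.Agent.N748.MG.aC_akR V).1
  have hre : ∀ V : ℝ, (Pool.Agent.N748.MG.aC V).re = ak V := fun V => by rw [Pool.Agent.N748.MG.aC_re, ← hak]
  have hsmall : ∀ᶠ T : ℝ in atTop, d T < 1 / 2 := hd.eventually (gt_mem_nhds (by norm_num))
  have p1 : ∀ D : ℝ, k ^ 2 < D →
      Tendsto (fun T : ℝ => trimmed k ((2 * d T) ^ D) (d T) T / (ak k * (2 * d T) ^ (-(k ^ 2)))) atTop (𝓝 1) := by
    intro D hD
    have h := Run7.h5.TM.part1 Pool.Agent.N748.MG.tm1F Pool.Agent.N748.MG.utF hA hk hD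
    rw [hre] at h
    have h2 := h.div_const (ak k)
    rw [div_self (hpos k).ne'] at h2
    refine h2.congr' ?_
    filter_upwards [hd0] with T hT
    have h3 : (0:ℝ) < 2 * d T := by linarith
    have h4 : (2 * d T) ^ (-(k ^ 2)) = ((2 * d T) ^ (k ^ 2))⁻¹ := Real.rpow_neg h3.le _
    have h5 : (0:ℝ) < (2 * d T) ^ (k ^ 2) := Real.rpow_pos_of_pos h3 _
    have h6 := hpos k
    change (2 * d T) ^ (k ^ 2) * trimmed k ((2 * d T) ^ D) (d T) T / ak k = _
    rw [h4]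
    field_simp
  refine ⟨p1, fun x => ?_, fun V lam hV hVk hlam => ?_, hpos k, fun hk1 => ?_⟩
  · have h := Run7.h5.TM.part2 Pool.Agent.N748.MG.tm1F Pool.Agent.N748.MG.tm2F Pool.Agent.N748.MG.utF hA x hk
    rw [hre] at h
    have h2 := h.div_const (ak k)
    rw [mul_div_cancel_left₀ _ (hpos k).ne'] at h2
    refine h2.congr' ?_
    filter_upwards [hd0] with T hT
    have h3 : (0:ℝ) < 2 * d T := by linarith
    have h4 : (2 * d T) ^ (-(k ^ 2)) = ((2 * d T) ^ (k ^ 2))⁻¹ := Real.rpow_neg h3.le _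
    have h5 : (0:ℝ) < (2 * d T) ^ (k ^ 2) := Real.rpow_pos_of_pos h3 _
    have h6 := hpos k
    change (2 * d T) ^ (k ^ 2) * trimmed k ((2 * d T) ^ (k ^ 2) *
      Real.exp (-(2 * k * x * Real.sqrt (L (d T) / 2)))) (d T) T / ak k = _
    rw [h4]
    field_simp
  · have h := Run7.h5.TM.part3 Pool.Agent.N748.MG.ldF hA hV hVk hlam (by rw [hre]; exact hpos V)
    rw [hre] at h
    have hkV : (0:ℝ) < 2 * (k - V) := by linarith
    have hq : 0 < ak V / (2 * (k - V)) := div_pos (hpos V) hkV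
    have h2 := h.div_const (ak V / (2 * (k - V)))
    rw [mul_div_cancel_left₀ _ hq.ne'] at h2
    refine h2.congr' ?_
    filter_upwards [hd0, hsmall] with T hT hT2
    have h3 : (0:ℝ) < 2 * d T := by linarith
    have h4 : (2 * d T) ^ (V ^ 2 - 2 * k * V) = ((2 * d T) ^ (2 * k * V - V ^ 2))⁻¹ := by
      rw [← Real.rpow_neg h3.le]; congr 1; ring
    have h5 : (0:ℝ) < (2 * d T) ^ (2 * k * V - V ^ 2) := Real.rpow_pos_of_pos h3 _
    have h6 := hpos V
    have h7 : 0 < L (d T) := Real.log_pos (by rw [lt_div_iff₀ h3]; linarith)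
    have h8 : 0 < Real.sqrt (Real.pi * L (d T)) := Real.sqrt_pos.2 (by positivity)
    change Real.sqrt (Real.pi * L (d T)) * (2 * d T) ^ (2 * k * V - V ^ 2) *
      trimmed k (lam * (ak V * (2 * d T) ^ (V ^ 2) / (2 * V * Real.sqrt (Real.pi * L (d T))))) (d T) T /
      (ak V / (2 * (k - V))) = _
    rw [h4]
    field_simp
  · have h1 : ak k < 1 := Run7.h5.TM.ak_lt_one hk hk1
    refine ⟨h1, fun D => ?_⟩
    have h2 := p1 (max D (k ^ 2 + 1)) (lt_of_lt_of_le (by linarith) (le_max_right _ _))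
    have h3 : (1:ℝ) < 1 / ak k := by rw [lt_div_iff₀ (hpos k)]; linarith
    have hd2 : ∀ᶠ T : ℝ in atTop, 1 ≤ d T * Real.log T / Real.log (1 / d T) ^ 2 := hdL.eventually_ge_atTop 1
    have hd3 : ∀ᶠ T : ℝ in atTop, d T < Real.exp (-1) := hd.eventually (gt_mem_nhds (Real.exp_pos _))
    filter_upwards [h2.eventually (gt_mem_nhds h3), hd0, hsmall, eventually_gt_atTop (1:ℝ), hd2, hd3]
      with T h4 h5 h6 h7 h8 h9
    have hT : 0 < T := by linarith
    have h10 : (0:ℝ) < 2 * d T := by linarith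
    have h11 : 0 < (2 * d T) ^ (-(k ^ 2)) := Real.rpow_pos_of_pos h10 _
    have h12 : trimmed k ((2 * d T) ^ (max D (k ^ 2 + 1))) (d T) T < (2 * d T) ^ (-(k ^ 2)) := by
      rw [div_lt_div_iff₀ (mul_pos (hpos k) h11) (hpos k)] at h4
      have h13 := hpos k
      have : ak k * trimmed k ((2 * d T) ^ (max D (k ^ 2 + 1))) (d T) T < ak k * (2 * d T) ^ (-(k ^ 2)) := by
        linarith
      exact lt_of_mul_lt_mul_left this h13.le
    have hne : {r : ℝ | ∃ F : Set ℝ, MeasurableSet F ∧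
        volume.real (F ∩ Set.Icc 0 T) ≤ (2 * d T) ^ (max D (k ^ 2 + 1)) * T ∧
        r = (1 / T) * ∫ t in Set.Icc 0 T \ F, ‖riemannZeta (1 / 2 + d T + t * Complex.I)‖ ^ (2 * k)}.Nonempty :=
      ⟨_, ∅, MeasurableSet.empty, by
        rw [Set.empty_inter, measureReal_empty]
        positivity, rfl⟩
    obtain ⟨r, ⟨F, mF, hF, rfl⟩, hr⟩ := exists_lt_of_csInf_lt hne h12
    refine ⟨F, mF, hF.trans ?_, ?_, ?_⟩
    · apply mul_le_mul_of_nonneg_right _ hT.le
      exact Real.rpow_le_rpow_of_exponent_ge h10 (by linarith) (le_max_left _ _)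
    · rw [one_div, inv_mul_lt_iff₀ hT] at hr
      exact hr
    · have h14 : 1 ≤ Real.log (1 / d T) ^ 2 := by
        have : 1 ≤ Real.log (1 / d T) := by
          rw [one_div, Real.log_inv]
          have := Real.log_lt_log h5 h9
          rw [Real.log_exp] at this
          linarith
        nlinarith
      rw [le_div_iff₀ (by linarith)] at h8
      have h15 : 1 / (2 * d T) ≤ Real.log T := by
        rw [div_le_iff₀ h10]
        nlinarith
      rw [Real.rpow_neg h10.le, ← Real.inv_rpow h10.le, ← one_div]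
      exact Real.rpow_le_rpow (by positivity) h15 (sq_nonneg k)

end Pool.Agent.Results.MP_3d0d30_nt.TrimmedMoments
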