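import Pool.Agent.Run7.h310.SQ.G3
import Pool.Agent.Run7.h310.SP.C1
import Pool.Agent.Run7.h701.SQ_CRED

set_option autoImplicit false

/-!
# The values of zeta along every vertical arithmetic progression near the critical line

The points are `1/2 + d + i (α n + β)`, `n < N`, for arbitrary real `α > 0` and `β`; `d = d(N) → 0` slowly. For every real
`V` the frequency of the values of size `(2d)^(-V)` is asymptotically a constant `C` times their frequency on the line:
large values (`V > 0`), small values (`V < 0`), values in an interval (all `V`, for `V = 0` the local form of the central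
limit theorem), and the moments of order `2k` over the values at most `c (2d)^(-V)`, `V < k`. The constant `C = C(V, α, β)`
comes from the integers `j` with `exp (2πj/α)` rational; it is `1` if there are none but `j = 0`.

Plan, limit theorem, twisted sums with complex exponents, resonances and assembly by helper310; the complex moments at
sample points (`Run7/h701/SQ_CRED.lean`) by helper701 and the passage from mean squares to sample points by helper270, on
the starting library `N748/MG`.
-/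

namespace Pool.Agent.Results.MP_3d0d30_nt.ValuesInProgressions

open Filter Topology

/-- the coefficients of `(1 - x)^(-V)` -/
noncomputable def cf (V : ℝ) (m : ℕ) : ℝ := ∏ i ∈ Finset.range m, (V + i) / ((i : ℝ) + 1)

/-- the arithmetic factor of the moment conjecture -/
noncomputable def ak (V : ℝ) : ℝ :=
  ∏' p : Nat.Primes, ((1 - 1 / (p : ℝ)) ^ (V ^ 2) * ∑' m : ℕ, cf V m ^ 2 * (1 / (p : ℝ)) ^ m)

/-- the local factor: the coefficient sums at the prime `p` with shifts `u` and `v` -/
noncomputable def lf (V : ℝ) (p u v : ℕ) : ℝ :=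
  ∑' m : ℕ, cf V (m + u) * cf V (m + v) * (p : ℝ) ^ (-((2 * m + u + v : ℕ) : ℝ) / 2)

/-- the factor of the twist by `a/b`: a product over the primes dividing `ab` -/
noncomputable def tau (V : ℝ) (a b : ℕ) : ℝ :=
  ∏ p ∈ (a * b).primeFactors, lf V p (a.factorization p) (b.factorization p) / lf V p 0 0

/-- the modulus of zeta at distance `d` from the critical line and height `t` -/
noncomputable def z (d t : ℝ) : ℝ := ‖riemannZeta (1 / 2 + d + t * Complex.I)‖

open Classical in
/-- the proportion of the first `N` points of the progression at which the value of `|ζ|` has the property `Q` -/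
noncomputable def P (Q : ℝ → Prop) (d α β : ℝ) (N : ℕ) : ℝ :=
  (((Finset.range N).filter fun n : ℕ => Q (z d (α * n + β))).card : ℝ) / N

open Classical in
/-- the moment of order `2k` over the first `N` points of the progression at which `|ζ| ≤ l` -/
noncomputable def M (k l d α β : ℝ) (N : ℕ) : ℝ :=
  (1 / (N : ℝ)) * ∑ n ∈ Finset.range N, if z d (α * n + β) ≤ l then z d (α * n + β) ^ (2 * k) else 0

/-- the size of the frequencies on the line -/
noncomputable def F (V d : ℝ) : ℝ := ak V * (2 * d) ^ (V ^ 2) / Real.sqrt (Real.pi * Real.log (1 / (2 * d)))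

open Run7.h310.SP Run7.h310.SQ Pool.Agent.N748.MG

lemma tau_eq (k : ℝ) (a b : ℕ) : tau k a b = tw k a b := by
  unfold tau tw
  refine Finset.prod_congr rfl fun p hp => ?_
  have hp1 : 1 ≤ p := (Nat.prime_of_mem_primeFactors hp).one_lt.le
  rw [LF_zero_eq k hp1, LF_zero_eq k hp1]
  rfl

lemma rat_iff {α : ℝ} (hα : 0 < α) {a b : ℕ} (ha : 1 ≤ a) (hb : 1 ≤ b) (j : ℤ) :
    α * (Real.log b - Real.log a) = 2 * Real.pi * j ↔ (b : ℝ) / a = Real.exp (2 * Real.pi * j / α) := by
  have haR : (0:ℝ) < a := by exact_mod_cast ha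
  have hbR : (0:ℝ) < b := by exact_mod_cast hb
  rw [← Real.log_div hbR.ne' haR.ne']
  constructor
  · intro h
    have h1 : Real.log (b / a) = 2 * Real.pi * j / α := by
      rw [eq_div_iff hα.ne']
      linarith
    rw [← h1, Real.exp_log (by positivity)]
  · intro h
    rw [h, Real.log_exp]
    field_simp

lemma M_eq (k c d α β : ℝ) (N : ℕ) : M k c d α β N = MI k c d (fun i => α * i + β) N := by
  classical
  unfold M MI
  rw [Finset.sum_filter]
  rfl

lemma P_eq (Q : ℝ → Prop) (d α β : ℝ) (N : ℕ) (inst : DecidablePred fun n : ℕ => Q (mz d (α * n + β))) :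
    P Q d α β N = ((@Finset.filter ℕ (fun n : ℕ => Q (mz d (α * n + β))) inst (Finset.range N)).card : ℝ) / N := by
  unfold P
  congr!

/-- the normalisation -/
lemma to_F {V C K : ℝ} {d : ℕ → ℝ} {X : ℕ → ℝ} (hd0 : ∀ᶠ N in atTop, 0 < d N) (hd : Tendsto d atTop (𝓝 0)) (hpos : 0 < ak V)
    (h : Tendsto (fun N => GN V (d N) * X N) atTop (𝓝 (ak V * C * K))) :
    Tendsto (fun N => X N / F V (d N)) atTop (𝓝 (C * K)) := by
  have h2 := h.div_const (ak V)
  have e : ak V * C * K / ak V = C * K := by field_simp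
  rw [e] at h2
  refine h2.congr' ?_
  filter_upwards [hd0, hd.eventually_lt_const (show (0:ℝ) < 1 / 4 by norm_num)] with N g1 g2
  have h3 : (0:ℝ) < 2 * d N := by linarith
  have hlog : 0 < Real.log (1 / (2 * d N)) := by
    apply Real.log_pos
    rw [lt_div_iff₀ h3]
    linarith
  have hs : 0 < Real.sqrt (Real.pi * Real.log (1 / (2 * d N))) := Real.sqrt_pos.2 (mul_pos Real.pi_pos hlog)
  have h4 : (2 * d N) ^ (-(V ^ 2)) = ((2 * d N) ^ (V ^ 2))⁻¹ := Real.rpow_neg h3.le _
  have h5 : (0:ℝ) < (2 * d N) ^ (V ^ 2) := Real.rpow_pos_of_pos h3 _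
  unfold F GN
  rw [h4]
  field_simp

theorem result (α β : ℝ) (hα : 0 < α) (V : ℝ) : 0 < ak V ∧ ∃ r : ℤ → ℝ,
    (∀ (j : ℤ) (a b : ℕ), 1 ≤ a → 1 ≤ b → Nat.Coprime a b → (b : ℝ) / a = Real.exp (2 * Real.pi * j / α) →
      r j = tau V a b) ∧
    (∀ j : ℤ, (∀ q : ℚ, (q : ℝ) ≠ Real.exp (2 * Real.pi * j / α)) → r j = 0) ∧
    Summable (fun j : ℤ => r j * Real.cos (2 * Real.pi * j * β / α)) ∧
    ∀ (C : ℝ), C = ∑' j : ℤ, r j * Real.cos (2 * Real.pi * j * β / α) →
      ∀ d : ℕ → ℝ, (∀ᶠ N in atTop, 0 < d N) → Tendsto d atTop (𝓝 0) →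
      Tendsto (fun N : ℕ => d N * Real.log N / Real.log (1 / d N) ^ 2) atTop atTop →
      (∀ c : ℝ, 0 < c → 0 < V → Tendsto (fun N : ℕ => P (fun w => c * (2 * d N) ^ (-V) < w) (d N) α β N / F V (d N))
        atTop (𝓝 (C * (c ^ (-(2 * V)) / (2 * V))))) ∧
      (∀ c : ℝ, 0 < c → V < 0 → Tendsto (fun N : ℕ => P (fun w => w < c * (2 * d N) ^ (-V)) (d N) α β N / F V (d N))
        atTop (𝓝 (C * (c ^ (-(2 * V)) / (-(2 * V)))))) ∧
      (∀ a b : ℝ, 0 < a → a ≤ b → Tendsto (fun N : ℕ =>
        P (fun w => a * (2 * d N) ^ (-V) < w ∧ w ≤ b * (2 * d N) ^ (-V)) (d N) α β N / F V (d N)) atTop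
        (𝓝 (C * ∫ u in (Real.log a)..(Real.log b), Real.exp (-(2 * V * u))))) ∧
      (∀ k c : ℝ, 0 < k → V < k → 0 < c → Tendsto (fun N : ℕ =>
        (2 * d N) ^ (2 * k * V) * M k (c * (2 * d N) ^ (-V)) (d N) α β N / F V (d N)) atTop
        (𝓝 (C * (c ^ (2 * (k - V)) / (2 * (k - V)))))) := by
  classical
  have hak : ak V = akR V := rfl
  have hpos : 0 < ak V := (aC_akR V).1
  refine ⟨hpos, res V α, ?_, ?_, ?_, ?_⟩
  · intro j a b ha hb hab h
    have h1 := (rat_iff hα ha hb j).2 h
    rw [res_eq hα ha hb hab h1, tau_eq]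
  · intro j hj
    unfold res
    rw [dif_neg]
    rintro ⟨q, h1, h2, h3, h4⟩
    have h5 := (rat_iff hα h1 h2 j).1 h4
    refine hj ((q.2 : ℚ) / q.1) ?_
    push_cast
    exact h5
  · exact res_summable_all V hα β
  · intro C hC d hd0 hd hdL
    obtain ⟨hL, hZ⟩ := ap_law (t_ctw nicF) Run7.h701.SP.t_CRED hα β hd0 hd hdL V
    rw [aC_re, ← hak] at hL
    have hcC : cAP V α β = C := hC.symm
    rw [hcC] at hL
    refine ⟨fun c hc hV => ?_, fun c hc hV => ?_, fun a b ha hab => ?_, fun k c hk hV hc => ?_⟩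
    · refine to_F hd0 hd hpos ?_
      refine (law_large hd0 hd hZ hL hV hc).congr fun N => ?_
      rw [P_eq (fun w => c * (2 * d N) ^ (-V) < w)]
    · refine to_F hd0 hd hpos ?_
      refine (law_small hd0 hd hZ hL hV hc).congr fun N => ?_
      rw [P_eq (fun w => w < c * (2 * d N) ^ (-V))]
    · refine to_F hd0 hd hpos ?_
      refine (law_mid hd0 hd hZ hL ha hab).congr fun N => ?_
      rw [P_eq (fun w => a * (2 * d N) ^ (-V) < w ∧ w ≤ b * (2 * d N) ^ (-V))]
    · refine to_F hd0 hd hpos ?_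
      refine (law_frozen hd0 hZ hL hk hV hc).congr fun N => ?_
      rw [M_eq]

end Pool.Agent.Results.MP_3d0d30_nt.ValuesInProgressions
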